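import Pool.Agent.W2helper57.LD.Stm

/-!
# Project LD, pieces EQEW and COND
-/

set_option autoImplicit false

open Pool.Agent.N602.PC

namespace Pool.Agent.W2helper49.LD

open Pool.Agent.W2helper57.LD

theorem wb_sum (p : ℝ) : ∑ b : Bool, wb p b = 1 := by
  simp [wb]

/-- **EQEW** -/
theorem s_eqew : S_EQEW := by
  refine ⟨fun n F => ?_, fun n p c => ?_⟩
  · unfold EQ Ew
    rw [Finset.sum_div]
    refine Finset.sum_congr rfl fun ω _ => ?_
    rw [Finset.prod_const, Finset.card_univ, one_div, inv_pow, div_eq_mul_inv, mul_comm]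
  · unfold EV Ew
    rw [← Finset.sum_mul]
    have h := Finset.prod_univ_sum (fun _ : Fin n => (Finset.univ : Finset Bool))
      (fun _ b => wb p b)
    rw [Fintype.piFinset_univ] at h
    rw [← h]
    simp only [wb_sum]
    simp

/-- **COND** -/
theorem s_cond : S_COND := by
  intro n p r F
  have key : ∀ G : (Fin n → Bool) → ℝ, ∀ f : Bool → Bool,
      EV p (fun σ => G (Function.update σ r (f (σ r)))) =
        ∑ b : Bool, wb p b * ∑ τ : {j // j ≠ r} → Bool, (∏ j, wb p (τ j)) *
          G ((Equiv.funSplitAt r Bool).symm (f b, τ)) := by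
    intro G f
    unfold EV Ew
    rw [← (Equiv.funSplitAt r Bool).symm.sum_comp, Fintype.sum_prod_type]
    refine Finset.sum_congr rfl fun b _ => ?_
    rw [Finset.mul_sum]
    refine Finset.sum_congr rfl fun τ _ => ?_
    have h1 : (Equiv.funSplitAt r Bool).symm (b, τ) r = b := by simp [Equiv.funSplitAt]
    have h2 : ∀ j : {j // j ≠ r}, (Equiv.funSplitAt r Bool).symm (b, τ) j.1 = τ j := by
      intro j; simp [Equiv.funSplitAt, j.2]
    have h3 : Function.update ((Equiv.funSplitAt r Bool).symm (b, τ)) r (f b) =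
        (Equiv.funSplitAt r Bool).symm (f b, τ) := by
      funext j
      by_cases hj : j = r
      · subst hj; simp [Equiv.funSplitAt]
      · simp [Equiv.funSplitAt, hj]
    rw [Fintype.prod_eq_mul_prod_subtype_ne _ r]
    simp only [h1, h2, h3]
    ring
  have e1 : EX p F = EV p (fun σ => (fun σ' => EQ fun Z => F σ' (pl σ' Z))
      (Function.update σ r (id (σ r)))) := by
    unfold EX
    simp
  have e2 : ∀ s, EXs p r s F = EV p (fun σ => (fun σ' => EQ fun Z => F σ' (pl σ' Z))
      (Function.update σ r ((fun _ => s) (σ r)))) := by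
    intro s; rfl
  have k1 := key (fun σ' => EQ fun Z => F σ' (pl σ' Z)) id
  have k2 := key (fun σ' => EQ fun Z => F σ' (pl σ' Z)) (fun _ => true)
  have k3 := key (fun σ' => EQ fun Z => F σ' (pl σ' Z)) (fun _ => false)
  rw [e1, e2, e2, k1, k2, k3]
  simp only [Fintype.sum_bool, id]
  simp only [wb, if_true]
  simp
  ring

end Pool.Agent.W2helper49.LD
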