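import Pool.Agent.W2helper57.LD.Stm

/-!
# Project LD, piece SUMG
-/

set_option autoImplicit false

namespace Pool.Agent.W2helper49.LD

open Pool.Agent.W2helper57.LD

theorem sum_cons {v N : ℕ} (F : (Fin (v + 1) → Fin N) → ℝ) :
    ∑ g, F g = ∑ a : Fin N, ∑ h : Fin v → Fin N, F (Fin.cons a h) := by
  rw [← Fintype.sum_prod_type']
  exact (Fintype.sum_equiv (Fin.consEquiv (fun _ => Fin N)) _ _ (fun _ => rfl)).symm

theorem sum_pair (N : ℕ) (α β : ℝ) :
    ∑ m : Fin N, ∑ m' : Fin N, (if m = m' then α else β) = N * α + ((N : ℝ) ^ 2 - N) * β := by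
  have h : ∀ m : Fin N, ∑ m' : Fin N, (if m = m' then α else β) = N * β + (α - β) := by
    intro m
    have h1 : ∀ m' : Fin N, (if m = m' then α else β) = β + (if m = m' then α - β else 0) := by
      intro m'
      split_ifs <;> ring
    rw [Finset.sum_congr rfl fun m' _ => h1 m', Finset.sum_add_distrib]
    simp
  rw [Finset.sum_congr rfl fun m _ => h m]
  simp
  ring

theorem sum_fun (v N : ℕ) (φ : Fin N → Fin N → ℝ) :
    ∑ h : Fin v → Fin N, ∑ h' : Fin v → Fin N, ∏ j, φ (h j) (h' j) =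
      (∑ m, ∑ m', φ m m') ^ v := by
  rw [← Fintype.sum_prod_type', ← Fintype.sum_prod_type', Fintype.sum_pow]
  exact (Fintype.sum_equiv (Equiv.arrowProdEquivProdArrow (Fin v) (fun _ => Fin N) (fun _ => Fin N)) _ _
    (fun _ => rfl)).symm

/-- **SUMG** -/
theorem s_sumg : S_SUMG := by
  intro v N p t c hp hp1 ht hc
  have hN : (0 : ℝ) ≤ (N : ℝ) ^ 2 - N := by
    rcases Nat.eq_zero_or_pos N with h | h
    · subst h; simp
    · have : (1 : ℝ) ≤ N := by exact_mod_cast h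
      nlinarith
  have hN0 : (0 : ℝ) ≤ N := Nat.cast_nonneg N
  have key : ∑ g : Fin (v + 1) → Fin N, ∑ g' : Fin (v + 1) → Fin N,
      (if g 0 = g' 0 then
        p * (∏ j : Fin v, if g j.succ = g' j.succ then p + (1 - p) * t else p ^ 2) +
        (1 - p) * (∏ j : Fin v, if g j.succ = g' j.succ then p + (1 - p) * t else 0)
      else c * p ^ 2 * ∏ j : Fin v, if g j.succ = g' j.succ then p else p ^ 2) =
      N * (p * (N * (p + (1 - p) * t) + ((N : ℝ) ^ 2 - N) * p ^ 2) ^ v +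
        (1 - p) * (N * (p + (1 - p) * t) + ((N : ℝ) ^ 2 - N) * 0) ^ v) +
      ((N : ℝ) ^ 2 - N) * (c * p ^ 2 * (N * p + ((N : ℝ) ^ 2 - N) * p ^ 2) ^ v) := by
    rw [sum_cons]
    simp_rw [sum_cons (v := v) (N := N)]
    simp only [Fin.cons_zero, Fin.cons_succ]
    have h1 : ∀ a : Fin N, (∑ h : Fin v → Fin N, ∑ a' : Fin N, ∑ h' : Fin v → Fin N,
        (if a = a' then
          p * (∏ j : Fin v, if h j = h' j then p + (1 - p) * t else p ^ 2) +
          (1 - p) * (∏ j : Fin v, if h j = h' j then p + (1 - p) * t else 0)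
        else c * p ^ 2 * ∏ j : Fin v, if h j = h' j then p else p ^ 2)) =
        ∑ a' : Fin N, if a = a' then
          (p * (N * (p + (1 - p) * t) + ((N : ℝ) ^ 2 - N) * p ^ 2) ^ v +
            (1 - p) * (N * (p + (1 - p) * t) + ((N : ℝ) ^ 2 - N) * 0) ^ v)
          else (c * p ^ 2 * (N * p + ((N : ℝ) ^ 2 - N) * p ^ 2) ^ v) := by
      intro a
      rw [Finset.sum_comm]
      refine Finset.sum_congr rfl fun a' _ => ?_
      split_ifs with h
      · simp_rw [Finset.sum_add_distrib, ← Finset.mul_sum]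
        rw [sum_fun v N (fun m m' => if m = m' then p + (1 - p) * t else p ^ 2),
          sum_fun v N (fun m m' => if m = m' then p + (1 - p) * t else 0), sum_pair, sum_pair]
      · simp_rw [← Finset.mul_sum]
        rw [sum_fun v N (fun m m' => if m = m' then p else p ^ 2), sum_pair]
    rw [Finset.sum_congr rfl fun a _ => h1 a, sum_pair]
  rw [key]
  have hA0 : 0 ≤ p + (1 - p) * t := by
    have := mul_nonneg (by linarith : (0 : ℝ) ≤ 1 - p) ht
    linarith
  have hA1 : p + (1 - p) * t ≤ p + t := by nlinarith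
  have hp2 : 0 ≤ p ^ 2 := sq_nonneg p
  have b1 : (N * (p + (1 - p) * t) + ((N : ℝ) ^ 2 - N) * p ^ 2) ^ v ≤
      ((N * p) ^ 2 + N * p + N * t) ^ v := by
    apply pow_le_pow_left₀ (by positivity)
    have h1 : N * (p + (1 - p) * t) ≤ N * (p + t) := mul_le_mul_of_nonneg_left hA1 hN0
    have h2 : 0 ≤ N * p ^ 2 := by positivity
    nlinarith
  have b2 : (N * (p + (1 - p) * t) + ((N : ℝ) ^ 2 - N) * 0) ^ v ≤ (N * p + N * t) ^ v := by
    apply pow_le_pow_left₀ (by positivity)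
    have h1 : N * (p + (1 - p) * t) ≤ N * (p + t) := mul_le_mul_of_nonneg_left hA1 hN0
    linarith
  have b3 : (N * p + ((N : ℝ) ^ 2 - N) * p ^ 2) ^ v ≤ ((N * p) ^ 2 + N * p) ^ v := by
    apply pow_le_pow_left₀ (by positivity)
    have h2 : 0 ≤ N * p ^ 2 := by positivity
    nlinarith
  have c1 : N * (p * (N * (p + (1 - p) * t) + ((N : ℝ) ^ 2 - N) * p ^ 2) ^ v) ≤
      N * p * ((N * p) ^ 2 + N * p + N * t) ^ v := by
    rw [mul_assoc]
    exact mul_le_mul_of_nonneg_left (mul_le_mul_of_nonneg_left b1 hp) hN0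
  have c2 : N * ((1 - p) * (N * (p + (1 - p) * t) + ((N : ℝ) ^ 2 - N) * 0) ^ v) ≤
      N * (N * p + N * t) ^ v := by
    refine mul_le_mul_of_nonneg_left ?_ hN0
    have h0 : 0 ≤ (N * (p + (1 - p) * t) + ((N : ℝ) ^ 2 - N) * 0) ^ v := by positivity
    nlinarith
  have c3 : ((N : ℝ) ^ 2 - N) * (c * p ^ 2 * (N * p + ((N : ℝ) ^ 2 - N) * p ^ 2) ^ v) ≤
      c * (N * p) ^ 2 * ((N * p) ^ 2 + N * p) ^ v := by
    have h0 : 0 ≤ (N * p + ((N : ℝ) ^ 2 - N) * p ^ 2) ^ v := by positivity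
    have h1 : ((N : ℝ) ^ 2 - N) * (c * p ^ 2) ≤ c * (N * p) ^ 2 := by
      have h2 : 0 ≤ N * (c * p ^ 2) := by positivity
      nlinarith
    have h3 : 0 ≤ ((N : ℝ) ^ 2 - N) * (c * p ^ 2) := by positivity
    calc ((N : ℝ) ^ 2 - N) * (c * p ^ 2 * (N * p + ((N : ℝ) ^ 2 - N) * p ^ 2) ^ v)
        = (((N : ℝ) ^ 2 - N) * (c * p ^ 2)) * (N * p + ((N : ℝ) ^ 2 - N) * p ^ 2) ^ v := by ring
      _ ≤ (c * (N * p) ^ 2) * ((N * p) ^ 2 + N * p) ^ v :=
          mul_le_mul h1 b3 h0 (h3.trans h1)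
  rw [mul_add]
  linarith

end Pool.Agent.W2helper49.LD
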